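import Mathlib

/-!
# Avoidance games are cold

Two players alternately take points of a finite set; `bad` is a monotone property of sets, and a
player may never make his own set bad.  `m` further neutral points are available to both players,
and the players have `p`, `q` optional passes.  A player who cannot move loses.
`W F m p q A B`: the player to move wins, where `F` is the set of free points, `A` his own points,
`B` the points of the other player, `p` his own passes and `q` the passes of the other player.
-/

namespace Pool.Agent.Helper73.RC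

variable {α : Type*} [DecidableEq α]

/-- The player to move wins. -/
def W (bad : Finset α → Prop) (F : Finset α) (m p q : ℕ) (A B : Finset α) : Prop :=
  (∃ e, ∃ _ : e ∈ F, ¬ bad (insert e A) ∧ ¬ W bad (F.erase e) m q p B (insert e A)) ∨
  (∃ m', ∃ _ : m = m' + 1, ¬ W bad F m' q p B A) ∨
  (∃ p', ∃ _ : p = p' + 1, ¬ W bad F m q p' B A)
termination_by F.card + m + p + q
decreasing_by
  all_goals
    first
    | (have := Finset.card_erase_lt_of_mem ‹_ ∈ F›; omega)
    | omega

variable {bad : Finset α → Prop}

lemma W_iff (F : Finset α) (m p q : ℕ) (A B : Finset α) :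
    W bad F m p q A B ↔
      (∃ e ∈ F, ¬ bad (insert e A) ∧ ¬ W bad (F.erase e) m q p B (insert e A)) ∨
      (∃ m', m = m' + 1 ∧ ¬ W bad F m' q p B A) ∨
      (∃ p', p = p' + 1 ∧ ¬ W bad F m q p' B A) := by
  rw [W]
  simp only [exists_prop]

/-- Fewer own points, more points of the other player (the same points being free), more own
passes and fewer passes of the other player are better for the player to move. -/
lemma W_mono (hbad : ∀ S T : Finset α, S ⊆ T → bad S → bad T) :
    ∀ (N : ℕ) (F : Finset α) (m p q p' q' : ℕ) (A B A' B' : Finset α),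
      F.card + m + p + q + p' + q' ≤ N → A' ⊆ A → B ⊆ B' → p ≤ p' → q' ≤ q →
      W bad F m p q A B → W bad F m p' q' A' B' := by
  intro N
  induction N with
  | zero =>
    intro F m p q p' q' A B A' B' hN hA hB hp hq h
    rw [W_iff] at h
    have hF : F = ∅ := by
      rw [← Finset.card_eq_zero]; omega
    rcases h with ⟨e, he, -⟩ | ⟨m', hm, -⟩ | ⟨p₁, hp₁, -⟩
    · simp [hF] at he
    · omega
    · omega
  | succ N ih =>
    intro F m p q p' q' A B A' B' hN hA hB hp hq h
    rw [W_iff] at h ⊢
    rcases h with ⟨e, he, h1, h2⟩ | ⟨m', rfl, h2⟩ | ⟨p₁, rfl, h2⟩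
    · left
      refine ⟨e, he, fun h3 => h1 (hbad _ _ (Finset.insert_subset_insert _ hA) h3), fun h3 => h2 ?_⟩
      have := Finset.card_erase_lt_of_mem he
      exact ih _ _ _ _ _ _ _ _ _ _ (by omega) hB (Finset.insert_subset_insert _ hA) hq hp h3
    · right; left
      exact ⟨m', rfl, fun h3 => h2 (ih _ _ _ _ _ _ _ _ _ _ (by omega) hB hA hq hp h3)⟩
    · right; right
      obtain ⟨p₂, rfl⟩ : ∃ p₂, p' = p₂ + 1 := ⟨p' - 1, by omega⟩
      exact ⟨p₂, rfl, fun h3 => h2 (ih _ _ _ _ _ _ _ _ _ _ (by omega) hB hA hq (by omega) h3)⟩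

/-- The exchange lemma: an additional own point is not better than an additional point of the
other player. -/
lemma W_exchange (hbad : ∀ S T : Finset α, S ⊆ T → bad S → bad T) :
    ∀ (N : ℕ) (F : Finset α) (m p q : ℕ) (A B : Finset α) (v w : α),
      F.card + m + p + q ≤ N → v ∈ F → w ∈ F → ¬ bad (insert w A) → ¬ bad (insert v B) →
      W bad (F.erase w) m p q (insert w A) B → W bad (F.erase v) m p q A (insert v B) := by
  intro N
  induction N with
  | zero =>
    intro F m p q A B v w hN hv hw hA hB h
    have hF : F = ∅ := by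
      rw [← Finset.card_eq_zero]; omega
    simp [hF] at hv
  | succ N ih =>
    intro F m p q A B v w hN hv hw hA hB h
    by_cases hvw : v = w
    · subst hvw
      exact W_mono hbad _ _ _ _ _ _ _ _ _ _ _ le_rfl (Finset.subset_insert _ _)
        (Finset.subset_insert _ _) le_rfl le_rfl h
    rw [W_iff] at h ⊢
    rcases h with ⟨e, he, h1, h2⟩ | ⟨m', rfl, h2⟩ | ⟨p₁, rfl, h2⟩
    · left
      have heF : e ∈ F := Finset.mem_of_mem_erase he
      have hew : e ≠ w := Finset.ne_of_mem_erase he
      by_cases hev : e = v
      · subst hev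
        refine ⟨w, Finset.mem_erase.2 ⟨fun h => hvw h.symm, hw⟩, hA, fun h3 => h2 ?_⟩
        have h4 : (F.erase w).erase e = (F.erase e).erase w := Finset.erase_right_comm
        rw [h4]
        refine W_mono hbad _ _ _ _ _ _ _ _ _ _ _ le_rfl (Finset.subset_insert _ _)
          (Finset.subset_insert _ _) le_rfl le_rfl h3
      · refine ⟨e, Finset.mem_erase.2 ⟨hev, heF⟩,
          fun h3 => h1 (hbad _ _ (Finset.insert_subset_insert _ (Finset.subset_insert _ _)) h3),
          fun h3 => h2 ?_⟩
        have hc := Finset.card_erase_lt_of_mem heF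
        have h4 : (F.erase w).erase e = (F.erase e).erase w := Finset.erase_right_comm
        have h5 : (F.erase v).erase e = (F.erase e).erase v := Finset.erase_right_comm
        rw [h4, Finset.insert_comm]
        rw [h5] at h3
        refine ih (F.erase e) m q p B (insert e A) w v (by omega)
          (Finset.mem_erase.2 ⟨fun h => hew h.symm, hw⟩)
          (Finset.mem_erase.2 ⟨fun h => hev h.symm, hv⟩) hB ?_ h3
        rwa [Finset.insert_comm]
    · right; left
      exact ⟨m', rfl, fun h3 => h2 (ih F m' q p B A w v (by omega) hw hv hB hA h3)⟩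
    · right; right
      exact ⟨p₁, rfl, fun h3 => h2 (ih F m q p₁ B A w v (by omega) hw hv hB hA h3)⟩

/-- Equal numbers of passes and an even number of neutral points do not matter. -/
lemma W_even : ∀ (N : ℕ) (F : Finset α) (j p : ℕ) (A B : Finset α),
    F.card + 2 * j + 2 * p ≤ N →
    (W bad F (2 * j) p p A B ↔ W bad F 0 0 0 A B) := by
  intro N
  induction N with
  | zero =>
    intro F j p A B hN
    obtain rfl : j = 0 := by omega
    obtain rfl : p = 0 := by omega
    simp
  | succ N ih =>
    intro F j p A B hN
    constructor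
    · intro h
      by_contra h0
      rw [W_iff] at h
      rcases h with ⟨e, he, h1, h2⟩ | ⟨m', hm, h2⟩ | ⟨p₁, rfl, h2⟩
      · have hc := Finset.card_erase_lt_of_mem he
        apply h0
        rw [W_iff]
        exact Or.inl ⟨e, he, h1, fun h3 => h2 ((ih _ j p _ _ (by omega)).2 h3)⟩
      · obtain ⟨j', rfl⟩ : ∃ j', j = j' + 1 := ⟨j - 1, by omega⟩
        obtain rfl : m' = 2 * j' + 1 := by omega
        apply h2
        rw [W_iff]
        refine Or.inr (Or.inl ⟨2 * j', rfl, fun h3 => h0 ?_⟩)
        exact (ih F j' p A B (by omega)).1 h3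
      · apply h2
        rw [W_iff]
        refine Or.inr (Or.inr ⟨p₁, rfl, fun h3 => h0 ?_⟩)
        exact (ih F j p₁ A B (by omega)).1 h3
    · intro h
      rw [W_iff] at h ⊢
      rcases h with ⟨e, he, h1, h2⟩ | ⟨m', hm, h2⟩ | ⟨p₁, hp, h2⟩
      · have hc := Finset.card_erase_lt_of_mem he
        exact Or.inl ⟨e, he, h1, fun h3 => h2 ((ih _ j p _ _ (by omega)).1 h3)⟩
      · omega
      · omega

lemma W_even' (F : Finset α) {m p : ℕ} (hm : Even m) (A B : Finset α) :
    W bad F m p p A B ↔ W bad F 0 0 0 A B := by
  obtain ⟨j, rfl⟩ := hm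
  have := W_even (bad := bad) _ F j p A B le_rfl
  rwa [two_mul] at this

/-- Without neutral points and passes: if the player to move (with the points `B`) wins, then his
opponent (with the points `A`) loses even if he makes two moves in succession. -/
lemma tempo_zero (hbad : ∀ S T : Finset α, S ⊆ T → bad S → bad T) {F : Finset α}
    {A B : Finset α} (h : W bad F 0 0 0 B A) {w : α} (hw : w ∈ F) (hbw : ¬ bad (insert w A)) :
    ¬ W bad (F.erase w) 0 0 0 (insert w A) B := by
  rw [W_iff] at h
  rcases h with ⟨e, he, h1, h2⟩ | ⟨m', hm, h2⟩ | ⟨p₁, hp, h2⟩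
  · exact fun h3 => h2 (W_exchange hbad _ F 0 0 0 A B e w le_rfl he hw hbw h1 h3)
  · omega
  · omega

/-- An odd number of neutral points, equal passes. -/
lemma W_odd (hbad : ∀ S T : Finset α, S ⊆ T → bad S → bad T) {F : Finset α} {m : ℕ}
    (hm : ¬ Even m) (A B : Finset α) :
    ∀ p : ℕ, W bad F m p p A B ↔ ¬ W bad F 0 0 0 B A := by
  obtain ⟨m', rfl⟩ : ∃ m', m = m' + 1 := ⟨m - 1, by
    rcases Nat.eq_zero_or_pos m with h | h
    · exact absurd (h ▸ Even.zero) hm
    · omega⟩
  have hm' : Even m' := by
    rw [Nat.even_add_one, not_not] at hm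
    exact hm
  intro p
  induction p with
  | zero =>
    constructor
    · intro h hG
      rw [W_iff] at h
      rcases h with ⟨e, he, h1, h2⟩ | ⟨m₁, h1, h2⟩ | ⟨p₁, h1, -⟩
      · apply h2
        rw [W_iff]
        refine Or.inr (Or.inl ⟨m', rfl, ?_⟩)
        rw [W_even' _ hm']
        exact tempo_zero hbad hG he h1
      · obtain rfl : m' = m₁ := by omega
        rw [W_even' _ hm'] at h2
        exact h2 hG
      · omega
    · intro h
      rw [W_iff]
      refine Or.inr (Or.inl ⟨m', rfl, ?_⟩)
      rwa [W_even' _ hm']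
  | succ p ih =>
    constructor
    · intro h hG
      rw [W_iff] at h
      rcases h with ⟨e, he, h1, h2⟩ | ⟨m₁, h1, h2⟩ | ⟨p₁, h1, h2⟩
      · apply h2
        rw [W_iff]
        refine Or.inr (Or.inl ⟨m', rfl, ?_⟩)
        rw [W_even' _ hm']
        exact tempo_zero hbad hG he h1
      · obtain rfl : m' = m₁ := by omega
        rw [W_even' _ hm'] at h2
        exact h2 hG
      · obtain rfl : p = p₁ := by omega
        apply h2
        rw [W_iff]
        exact Or.inr (Or.inr ⟨p, rfl, fun h3 => ih.1 h3 hG⟩)
    · intro h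
      rw [W_iff]
      refine Or.inr (Or.inl ⟨m', rfl, ?_⟩)
      rwa [W_even' _ hm']

/-- The tempo theorem: if a player wins when it is his turn (equal numbers of passes), then he also
wins when his opponent makes two moves in succession. -/
theorem tempo (hbad : ∀ S T : Finset α, S ⊆ T → bad S → bad T) {F : Finset α}
    {m p : ℕ} {A B : Finset α} (h : W bad F m p p B A) {w : α} (hw : w ∈ F)
    (hbw : ¬ bad (insert w A)) : ¬ W bad (F.erase w) m p p (insert w A) B := by
  by_cases hm : Even m
  · rw [W_even' _ hm] at h ⊢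
    exact tempo_zero hbad h hw hbw
  · rw [W_odd hbad hm] at h ⊢
    rw [not_not]
    by_contra h2
    apply h
    rw [W_iff]
    exact Or.inl ⟨w, hw, hbw, h2⟩

/-- More own passes and fewer passes of the other player are not worse. -/
lemma W_pass_mono (hbad : ∀ S T : Finset α, S ⊆ T → bad S → bad T) {F : Finset α}
    {m p q p' q' : ℕ} {A B : Finset α} (hp : p ≤ p') (hq : q' ≤ q) (h : W bad F m p q A B) :
    W bad F m p' q' A B :=
  W_mono hbad _ _ _ _ _ _ _ _ _ _ _ le_rfl (Finset.Subset.refl _) (Finset.Subset.refl _) hp hq h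

/-- A player who (with equal passes) wins for one of the two possible turns, wins with an
additional pass when he begins. -/
theorem W_of_lt (hbad : ∀ S T : Finset α, S ⊆ T → bad S → bad T) {F : Finset α}
    {m p q : ℕ} {A B : Finset α} (hqp : q < p)
    (h : W bad F m q q A B ∨ ¬ W bad F m q q B A) : W bad F m p q A B := by
  rcases h with h | h
  · exact W_pass_mono hbad hqp.le le_rfl h
  · rw [W_iff]
    refine Or.inr (Or.inr ⟨p - 1, by omega, fun h3 => h ?_⟩)
    exact W_pass_mono hbad le_rfl (by omega) h3

/-- A player who (with equal passes) wins for one of the two possible turns, wins with an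
additional pass when his opponent begins. -/
theorem not_W_of_lt (hbad : ∀ S T : Finset α, S ⊆ T → bad S → bad T) {F : Finset α}
    {m p q : ℕ} {A B : Finset α} (hpq : p < q)
    (h : W bad F m p p B A ∨ ¬ W bad F m p p A B) : ¬ W bad F m p q A B := by
  rcases h with h | h
  · intro hW
    rw [W_iff] at hW
    rcases hW with ⟨e, he, h1, h2⟩ | ⟨m', rfl, h2⟩ | ⟨p₁, rfl, h2⟩
    · refine h2 (W_of_lt hbad hpq (Or.inr ?_))
      exact tempo hbad h he h1
    · apply h2
      have h3 : ¬ W bad F m' p p A B := by
        by_cases hm : Even m'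
        · have hm1 : ¬ Even (m' + 1) := by rwa [Nat.even_add_one, not_not]
          rw [W_odd hbad hm1] at h
          rwa [W_even' _ hm]
        · have hm1 : Even (m' + 1) := by rwa [Nat.even_add_one]
          rw [W_even' _ hm1] at h
          rw [W_odd hbad hm, not_not]
          exact h
      rw [W_iff]
      refine Or.inr (Or.inr ⟨q - 1, by omega, fun h4 => h3 ?_⟩)
      exact W_pass_mono hbad le_rfl (by omega) h4
    · exact h2 (W_pass_mono hbad hpq.le (by omega) h)
  · exact fun hW => h (W_pass_mono hbad le_rfl hpq.le hW)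

/-- Positions in which both players win on turn or both players lose on turn: the winner with `m`
neutral points and `p`, `q` passes. -/
theorem table_balanced (hbad : ∀ S T : Finset α, S ⊆ T → bad S → bad T) {F : Finset α}
    {A B : Finset α} (h : W bad F 0 0 0 A B ↔ W bad F 0 0 0 B A) (m p q : ℕ) :
    W bad F m p q A B ↔ (q < p ∨ (p = q ∧ (W bad F 0 0 0 A B ↔ Even m))) := by
  have hb : ∀ p : ℕ, W bad F m p p A B ↔ W bad F m p p B A := by
    intro p
    by_cases hm : Even m
    · rw [W_even' _ hm, W_even' _ hm, h]
    · rw [W_odd hbad hm, W_odd hbad hm, h]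
  rcases lt_trichotomy p q with h1 | rfl | h1
  · constructor
    · intro h2
      refine absurd h2 (not_W_of_lt hbad h1 ?_)
      rw [hb]
      exact em _
    · rintro (h2 | ⟨h2, -⟩) <;> omega
  · by_cases hm : Even m
    · rw [W_even' _ hm]
      simp [hm]
    · rw [W_odd hbad hm, h]
      simp [hm]
  · refine ⟨fun _ => Or.inl h1, fun _ => W_of_lt hbad h1 ?_⟩
    rw [hb]
    exact em _

/-- At the start: if the first player wins, then the position with one point taken is lost for
the player to move, also if this is the first player. -/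
lemma start_zero (hbad : ∀ S T : Finset α, S ⊆ T → bad S → bad T) {F : Finset α}
    (h : W bad F 0 0 0 ∅ ∅) {w : α} (hw : w ∈ F) (hbw : ¬ bad {w}) :
    ¬ W bad (F.erase w) 0 0 0 {w} ∅ := by
  have := tempo_zero hbad h hw (by simpa using hbw)
  simpa using this

/-- The winner at the start of every avoidance game with `m` neutral points, `p` passes of the
first player and `q` passes of the second player. -/
theorem start_table (hbad : ∀ S T : Finset α, S ⊆ T → bad S → bad T) (F : Finset α)
    (m p q : ℕ) : W bad F m p q ∅ ∅ ↔ (q < p ∨ (p = q ∧ (W bad F 0 0 0 ∅ ∅ ↔ Even m))) :=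
  table_balanced hbad Iff.rfl m p q

end Pool.Agent.Helper73.RC
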