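import Mathlib

/-!
# The reverse clique game on `j` disjoint copies of `K_n` and `m` further disjoint edges

Two players alternately colour an uncoloured edge of the graph `j K_n + m K_2`, each with his own
colour; a player who completes a `K_k` in his own colour loses at once.  Moreover each player may
have a number of optional passes.  For `j = 1`, `m = 0` and no passes this is the reverse clique
game `(K_n, K_k, -)`.
-/

namespace Pool.Agent.Helper73.RC

/-- The edges of the `j` copies of the complete graph on `n` vertices: the pair `(c, e)` is the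
edge `e` of the copy `c`. -/
def board (j n : ℕ) : Finset (Fin j × Sym2 (Fin n)) :=
  Finset.univ.filter (fun x => ¬ x.2.IsDiag)

/-- The set `S` of edges contains all edges of a complete graph on `k` vertices. -/
def Clique {j n : ℕ} (k : ℕ) (S : Finset (Fin j × Sym2 (Fin n))) : Prop :=
  ∃ c : Fin j, ∃ T : Finset (Fin n), T.card = k ∧ ∀ x ∈ T, ∀ y ∈ T, x ≠ y → (c, s(x, y)) ∈ S

mutual

/-- `Wins j n k m p q A B`: the player to move can force a win (the opponent completes the first
`K_k` in his own colour), when `m` of the disjoint edges are uncoloured, `A` are the edges of the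
copies of `K_n` coloured by the player to move, `B` those coloured by his opponent, and the players
have `p` (player to move) and `q` (opponent) passes left.  He can reach a position in which the
opponent loses, by colouring an edge of a copy of `K_n` without completing a `K_k`, by colouring
one of the disjoint edges, or by a pass. -/
inductive Wins (j n k : ℕ) : ℕ → ℕ → ℕ → Finset (Fin j × Sym2 (Fin n)) →
    Finset (Fin j × Sym2 (Fin n)) → Prop
  | edge {m p q : ℕ} {A B : Finset (Fin j × Sym2 (Fin n))} (e : Fin j × Sym2 (Fin n))
      (he : e ∈ board j n) (hA : e ∉ A) (hB : e ∉ B) (hs : ¬ Clique k (insert e A))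
      (h : Loses j n k m q p B (insert e A)) : Wins j n k m p q A B
  | disjointEdge {m p q : ℕ} {A B : Finset (Fin j × Sym2 (Fin n))}
      (h : Loses j n k m q p B A) : Wins j n k (m + 1) p q A B
  | pass {m p q : ℕ} {A B : Finset (Fin j × Sym2 (Fin n))}
      (h : Loses j n k m q p B A) : Wins j n k m (p + 1) q A B

/-- `Loses j n k m p q A B`: the opponent of the player to move can force a win.  Some edge is
uncoloured, and every possible move of the player to move completes a `K_k` in his own colour or
leads to a position in which the opponent (then to move) wins. -/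
inductive Loses (j n k : ℕ) : ℕ → ℕ → ℕ → Finset (Fin j × Sym2 (Fin n)) →
    Finset (Fin j × Sym2 (Fin n)) → Prop
  | mk {m p q : ℕ} {A B : Finset (Fin j × Sym2 (Fin n))}
      (h0 : (∃ e ∈ board j n, e ∉ A ∧ e ∉ B) ∨ 0 < m)
      (h1 : ∀ e ∈ board j n, e ∉ A → e ∉ B → ¬ Clique k (insert e A) →
        Wins j n k m q p B (insert e A))
      (h2 : ∀ m', m = m' + 1 → Wins j n k m' q p B A)
      (h3 : ∀ p', p = p' + 1 → Wins j n k m q p' B A) : Loses j n k m p q A B

end

/-- Every colouring of the edges of `K_n` with two colours contains a monochromatic `K_k`. -/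
def Ramsey (n k : ℕ) : Prop :=
  ∀ C : Finset (Sym2 (Fin n)), ∃ T : Finset (Fin n), T.card = k ∧
    ((∀ x ∈ T, ∀ y ∈ T, x ≠ y → s(x, y) ∈ C) ∨ (∀ x ∈ T, ∀ y ∈ T, x ≠ y → s(x, y) ∉ C))

end Pool.Agent.Helper73.RC
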