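import Mathlib

/-!
# The Ramsey number `R(4,4)` is at most 18
-/

namespace Pool.Agent.Helper73.RC

open Classical

variable {V : Type*}

/-- `S` contains a set of `k` vertices which are pairwise related. -/
def Cl (r : V → V → Prop) (k : ℕ) (S : Finset V) : Prop :=
  ∃ T ⊆ S, T.card = k ∧ ∀ x ∈ T, ∀ y ∈ T, x ≠ y → r x y

/-- Ramsey property for sets with at least `n` elements. -/
def Rams (r : V → V → Prop) (s t n : ℕ) : Prop :=
  ∀ S : Finset V, n ≤ S.card → Cl r s S ∨ Cl (fun x y => ¬ r x y) t S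

lemma cl_insert {r : V → V → Prop} (hr : ∀ x y, r x y → r y x) {k : ℕ} {S N : Finset V} {x : V}
    (hx : x ∈ S) (hN : N ⊆ S.erase x) (hNr : ∀ y ∈ N, r x y) (h : Cl r k N) : Cl r (k + 1) S := by
  obtain ⟨T, hT, hc, hT2⟩ := h
  have hxT : x ∉ T := fun h => by simpa using hN (hT h)
  refine ⟨insert x T, ?_, by rw [Finset.card_insert_of_notMem hxT, hc], ?_⟩
  · intro y hy
    rcases Finset.mem_insert.1 hy with rfl | hy
    · exact hx
    · exact Finset.mem_of_mem_erase (hN (hT hy))
  · intro y hy z hz hyz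
    rcases Finset.mem_insert.1 hy with hy' | hy'
    · rcases Finset.mem_insert.1 hz with hz' | hz'
      · exact absurd (hy'.trans hz'.symm) hyz
      · rw [hy']
        exact hNr z (hT hz')
    · rcases Finset.mem_insert.1 hz with hz' | hz'
      · rw [hz']
        exact hr _ _ (hNr y (hT hy'))
      · exact hT2 y hy' z hz' hyz

lemma cl_mono {r : V → V → Prop} {k : ℕ} {S N : Finset V} (hN : N ⊆ S) (h : Cl r k N) :
    Cl r k S := by
  obtain ⟨T, hT, hc, hT2⟩ := h
  exact ⟨T, hT.trans hN, hc, hT2⟩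

lemma rams_two (r : V → V → Prop) (hr : ∀ x y, r x y → r y x) (k : ℕ) : Rams r 2 k k := by
  intro S hS
  by_cases h : ∃ x ∈ S, ∃ y ∈ S, x ≠ y ∧ r x y
  · obtain ⟨x, hx, y, hy, hxy, hxyr⟩ := h
    left
    refine ⟨{x, y}, ?_, Finset.card_pair hxy, ?_⟩
    · intro z hz
      simp only [Finset.mem_insert, Finset.mem_singleton] at hz
      rcases hz with rfl | rfl <;> assumption
    · intro z hz w hw hzw
      simp only [Finset.mem_insert, Finset.mem_singleton] at hz hw
      rcases hz with rfl | rfl <;> rcases hw with rfl | rfl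
      · exact absurd rfl hzw
      · exact hxyr
      · exact hr _ _ hxyr
      · exact absurd rfl hzw
  · right
    obtain ⟨T, hT, hc⟩ := Finset.exists_subset_card_eq hS
    refine ⟨T, hT, hc, fun x hx y hy hxy hr' => h ⟨x, hT hx, y, hT hy, hxy, hr'⟩⟩

lemma not_symm {r : V → V → Prop} (hr : ∀ x y, r x y → r y x) :
    ∀ x y, ¬ r x y → ¬ r y x := fun _ _ h h' => h (hr _ _ h')

lemma rams_swap {r : V → V → Prop} {s t n : ℕ} (h : Rams (fun x y => ¬ r x y) t s n) :
    Rams r s t n := by
  intro S hS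
  rcases h S hS with h1 | ⟨T, hT, hc, h2⟩
  · exact Or.inr h1
  · exact Or.inl ⟨T, hT, hc, fun x hx y hy hxy => not_not.1 (h2 x hx y hy hxy)⟩

lemma card_split (r : V → V → Prop) {S : Finset V} {x : V} (hx : x ∈ S) :
    ((S.erase x).filter (fun y => r x y)).card + ((S.erase x).filter (fun y => ¬ r x y)).card + 1 =
      S.card := by
  have h1 := Finset.card_filter_add_card_filter_not (s := S.erase x) (fun y => r x y)
  have h2 := Finset.card_erase_of_mem hx
  have h3 : 0 < S.card := Finset.card_pos.2 ⟨x, hx⟩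
  omega

lemma left_step {r : V → V → Prop} (hr : ∀ x y, r x y → r y x) {s t a : ℕ}
    (h1 : Rams r s t a) {S : Finset V} {x : V} (hx : x ∈ S)
    (hc : a ≤ ((S.erase x).filter (fun y => r x y)).card) :
    Cl r (s + 1) S ∨ Cl (fun x y => ¬ r x y) t S := by
  rcases h1 _ hc with h | h
  · exact Or.inl (cl_insert hr hx (Finset.filter_subset _ _)
      (fun y hy => (Finset.mem_filter.1 hy).2) h)
  · exact Or.inr (cl_mono ((Finset.filter_subset _ _).trans (Finset.erase_subset _ _)) h)

lemma right_step {r : V → V → Prop} (hr : ∀ x y, r x y → r y x) {s t b : ℕ}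
    (h2 : Rams r s t b) {S : Finset V} {x : V} (hx : x ∈ S)
    (hc : b ≤ ((S.erase x).filter (fun y => ¬ r x y)).card) :
    Cl r s S ∨ Cl (fun x y => ¬ r x y) (t + 1) S := by
  rcases h2 _ hc with h | h
  · exact Or.inl (cl_mono ((Finset.filter_subset _ _).trans (Finset.erase_subset _ _)) h)
  · exact Or.inr (cl_insert (not_symm hr) hx (Finset.filter_subset _ _)
      (fun y hy => (Finset.mem_filter.1 hy).2) h)

lemma rams_step {r : V → V → Prop} (hr : ∀ x y, r x y → r y x) {s t a b : ℕ}
    (h1 : Rams r s (t + 1) a) (h2 : Rams r (s + 1) t b) (hab : 1 ≤ a + b) :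
    Rams r (s + 1) (t + 1) (a + b) := by
  intro S hS
  have hpos : 0 < S.card := by omega
  obtain ⟨x, hx⟩ := Finset.card_pos.1 hpos
  have := card_split r hx
  rcases le_or_gt a ((S.erase x).filter (fun y => r x y)).card with h | h
  · exact left_step hr h1 hx h
  · exact right_step hr h2 hx (by omega)

lemma rams33 {r : V → V → Prop} (hr : ∀ x y, r x y → r y x) : Rams r 3 3 6 :=
  rams_step (a := 3) (b := 3) hr (rams_two r hr 3)
    (rams_swap (rams_two _ (not_symm hr) 3)) (by norm_num)

/-- `R(3,4) ≤ 9`. -/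
lemma rams34 [Fintype V] {r : V → V → Prop} (hr : ∀ x y, r x y → r y x) : Rams r 3 4 9 := by
  intro S₀ hS₀
  obtain ⟨S, hSS, hS⟩ := Finset.exists_subset_card_eq hS₀
  by_contra hcon
  have hno : ¬ (Cl r 3 S ∨ Cl (fun x y => ¬ r x y) 4 S) := fun h =>
    hcon (h.imp (cl_mono hSS) (cl_mono hSS))
  have hdeg : ∀ x ∈ S, ((S.erase x).filter (fun y => r x y)).card = 3 := by
    intro x hx
    have h1 : ((S.erase x).filter (fun y => r x y)).card ≤ 3 := by
      by_contra h
      exact hno (left_step hr (rams_two r hr 4) hx (by omega))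
    have h2 : ((S.erase x).filter (fun y => ¬ r x y)).card ≤ 5 := by
      by_contra h
      exact hno (right_step hr (rams33 hr) hx (by omega))
    have := card_split r hx
    omega
  let G : SimpleGraph V :=
    { Adj := fun x y => x ∈ S ∧ y ∈ S ∧ x ≠ y ∧ r x y
      symm := ⟨fun x y h => ⟨h.2.1, h.1, h.2.2.1.symm, hr _ _ h.2.2.2⟩⟩
      loopless := ⟨fun x h => h.2.2.1 rfl⟩ }
  have hG : ∀ x, G.degree x = if x ∈ S then 3 else 0 := by
    intro x
    split_ifs with hx
    · rw [← hdeg x hx, ← SimpleGraph.card_neighborFinset_eq_degree]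
      congr 1
      ext y
      simp only [SimpleGraph.mem_neighborFinset, Finset.mem_filter, Finset.mem_erase]
      constructor
      · rintro ⟨-, h2, h3, h4⟩
        exact ⟨⟨h3.symm, h2⟩, h4⟩
      · rintro ⟨⟨h3, h2⟩, h4⟩
        exact ⟨hx, h2, h3.symm, h4⟩
    · rw [← SimpleGraph.card_neighborFinset_eq_degree, Finset.card_eq_zero]
      ext y
      simp only [SimpleGraph.mem_neighborFinset, Finset.notMem_empty, iff_false]
      exact fun h => hx h.1
  have h1 := G.even_card_odd_degree_vertices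
  have h2 : (Finset.univ.filter (fun v => Odd (G.degree v))) = S := by
    ext x
    simp only [Finset.mem_filter, Finset.mem_univ, true_and, hG]
    split_ifs with hx
    · simp [hx, Nat.odd_iff]
    · simp [hx]
  rw [h2, hS] at h1
  revert h1
  decide

/-- `R(4,4) ≤ 18`. -/
theorem rams44 [Fintype V] {r : V → V → Prop} (hr : ∀ x y, r x y → r y x) : Rams r 4 4 18 :=
  rams_step (a := 9) (b := 9) hr (rams34 hr) (rams_swap (rams34 (not_symm hr))) (by norm_num)

end Pool.Agent.Helper73.RC
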