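import Pool.Agent.Helper73.RC.Core

/-!
# Disjoint unions of boards
-/

namespace Pool.Agent.Helper73.RC

variable {α : Type*} [DecidableEq α] {bad : Finset α → Prop}

/-- The property `bad` can be checked on the two parts `P` and `¬ P` of the board. -/
def Splits (bad : Finset α → Prop) (P : α → Prop) [DecidablePred P] : Prop :=
  ∀ S : Finset α, bad S ↔ bad (S.filter P) ∨ bad (S.filter (fun x => ¬ P x))

lemma Splits.symm {P : α → Prop} [DecidablePred P] (h : Splits bad P) :
    Splits bad (fun x => ¬ P x) := by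
  intro S
  rw [h S, or_comm]
  simp only [not_not]

lemma filter_insert_pos {P : α → Prop} [DecidablePred P] {e : α} (he : P e) (A : Finset α) :
    (insert e A).filter P = insert e (A.filter P) := by
  rw [Finset.filter_insert, if_pos he]

lemma filter_insert_neg {P : α → Prop} [DecidablePred P] {e : α} (he : P e) (A : Finset α) :
    (insert e A).filter (fun x => ¬ P x) = A.filter (fun x => ¬ P x) := by
  rw [Finset.filter_insert, if_neg (by simpa using he)]

lemma filter_erase_pos {P : α → Prop} [DecidablePred P] {e : α} (F : Finset α) :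
    (F.erase e).filter P = (F.filter P).erase e := by
  ext x
  simp only [Finset.mem_filter, Finset.mem_erase]
  tauto

lemma filter_erase_neg {P : α → Prop} [DecidablePred P] {e : α} (he : P e) (F : Finset α) :
    (F.erase e).filter (fun x => ¬ P x) = F.filter (fun x => ¬ P x) := by
  ext x
  simp only [Finset.mem_filter, Finset.mem_erase]
  constructor
  · rintro ⟨⟨-, h⟩, h2⟩
    exact ⟨h, h2⟩
  · rintro ⟨h, h2⟩
    exact ⟨⟨fun h3 => h2 (h3 ▸ he), h⟩, h2⟩

/-- The player to move wins on the part `P` of the board. -/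
def WP (bad : Finset α → Prop) (P : α → Prop) [DecidablePred P] (F A B : Finset α) : Prop :=
  W bad (F.filter P) 0 0 0 (A.filter P) (B.filter P)

lemma legal_of {P : α → Prop} [DecidablePred P] (hs : Splits bad P) {e : α} (he : P e)
    {A : Finset α} (hA : ¬ bad A) (h : ¬ bad (insert e (A.filter P))) : ¬ bad (insert e A) := by
  rw [hs] at hA ⊢
  rw [filter_insert_pos he, filter_insert_neg he]
  tauto

/-- one move in the part `P` -/
lemma WP_move {P : α → Prop} [DecidablePred P] {F A B : Finset α} (h : WP bad P F A B) :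
    ∃ e ∈ F, P e ∧ ¬ bad (insert e (A.filter P)) ∧ ¬ WP bad P (F.erase e) B (insert e A) := by
  rw [WP, W_iff] at h
  rcases h with ⟨e, he, h1, h2⟩ | ⟨m', hm, -⟩ | ⟨m', hm, -⟩
  · obtain ⟨he, hP⟩ := Finset.mem_filter.1 he
    refine ⟨e, he, hP, h1, ?_⟩
    rwa [WP, filter_erase_pos, filter_insert_pos hP]
  · omega
  · omega

lemma WP_of_not {P : α → Prop} [DecidablePred P] {F A B : Finset α} (h : ¬ WP bad P F A B)
    {e : α} (he : e ∈ F) (hP : P e) (h1 : ¬ bad (insert e (A.filter P))) :
    WP bad P (F.erase e) B (insert e A) := by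
  by_contra h2
  apply h
  rw [WP, W_iff]
  refine Or.inl ⟨e, Finset.mem_filter.2 ⟨he, hP⟩, h1, ?_⟩
  rwa [WP, filter_erase_pos, filter_insert_pos hP] at h2

lemma WP_congr {P : α → Prop} [DecidablePred P] {F A B : Finset α} {e : α} (he : P e) :
    (WP bad (fun x => ¬ P x) (F.erase e) B (insert e A) ↔ WP bad (fun x => ¬ P x) F B A) := by
  rw [WP, WP, filter_erase_neg he, filter_insert_neg he]

lemma WP_congr' {P : α → Prop} [DecidablePred P] {F A B : Finset α} {e : α} (he : P e) :
    (WP bad (fun x => ¬ P x) (F.erase e) (insert e A) B ↔ WP bad (fun x => ¬ P x) F A B) := by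
  rw [WP, WP, filter_erase_neg he, filter_insert_neg he]

lemma sum_aux (hbad : ∀ S T : Finset α, S ⊆ T → bad S → bad T) :
    ∀ (N : ℕ) (P : α → Prop) [DecidablePred P] (_ : Splits bad P) (F A B : Finset α),
      F.card ≤ N → ¬ bad A → ¬ bad B →
      (¬ WP bad P F A B → ¬ WP bad (fun x => ¬ P x) F A B → ¬ W bad F 0 0 0 A B) ∧
      (WP bad P F A B → ¬ WP bad (fun x => ¬ P x) F B A → W bad F 0 0 0 A B) := by
  intro N
  induction N with
  | zero =>
    intro P _ hs F A B hN hA hB
    have hF : F = ∅ := by rw [← Finset.card_eq_zero]; omega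
    subst hF
    constructor
    · intro _ _ h
      rw [W_iff] at h
      rcases h with ⟨e, he, -⟩ | ⟨m', hm, -⟩ | ⟨m', hm, -⟩
      · simp at he
      · omega
      · omega
    · intro h
      obtain ⟨e, he, -⟩ := WP_move h
      simp at he
  | succ N ih =>
    intro P _ hs F A B hN hA hB
    have hpos : ∀ (P : α → Prop) [DecidablePred P] (_ : Splits bad P), ¬ WP bad P F A B →
        ¬ WP bad (fun x => ¬ P x) F A B → ∀ e ∈ F, P e → ¬ bad (insert e A) →
        W bad (F.erase e) 0 0 0 B (insert e A) := by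
      intro P _ hs h1 h2 e he hP hbe
      have hc := Finset.card_erase_lt_of_mem he
      have h3 : ¬ bad (insert e (A.filter P)) := fun h =>
        hbe (hbad _ _ (Finset.insert_subset_insert _ (Finset.filter_subset _ _)) h)
      refine (ih P hs (F.erase e) B (insert e A) (by omega) hB hbe).2 (WP_of_not h1 he hP h3) ?_
      rwa [WP_congr' hP]
    constructor
    · intro h1 h2 h
      rw [W_iff] at h
      rcases h with ⟨e, he, h3, h4⟩ | ⟨m', hm, -⟩ | ⟨m', hm, -⟩
      · by_cases hP : P e
        · exact h4 (hpos P hs h1 h2 e he hP h3)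
        · refine h4 (hpos (fun x => ¬ P x) hs.symm h2 ?_ e he hP h3)
          simpa only [WP, not_not] using h1
      · omega
      · omega
    · intro h1 h2
      obtain ⟨e, he, hP, h3, h4⟩ := WP_move h1
      have hc := Finset.card_erase_lt_of_mem he
      have h5 := legal_of hs hP hA h3
      rw [W_iff]
      refine Or.inl ⟨e, he, h5, ?_⟩
      refine (ih P hs (F.erase e) B (insert e A) (by omega) hB h5).1 h4 ?_
      rwa [WP_congr hP]

/-- The start on a disjoint union of two boards: the first player wins if and only if he wins on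
exactly one of the two boards. -/
theorem start_union (hbad : ∀ S T : Finset α, S ⊆ T → bad S → bad T) (h0 : ¬ bad ∅)
    (P : α → Prop) [DecidablePred P] (hs : Splits bad P) (F : Finset α) :
    W bad F 0 0 0 ∅ ∅ ↔
      (W bad (F.filter P) 0 0 0 ∅ ∅ ↔ ¬ W bad (F.filter (fun x => ¬ P x)) 0 0 0 ∅ ∅) := by
  -- the case of two first player wins
  have key : ∀ (P : α → Prop) [DecidablePred P] (_ : Splits bad P),
      W bad (F.filter P) 0 0 0 ∅ ∅ → W bad (F.filter (fun x => ¬ P x)) 0 0 0 ∅ ∅ →
      ∀ e ∈ F, P e → ¬ bad (insert e ∅) → W bad (F.erase e) 0 0 0 ∅ (insert e ∅) := by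
    intro P _ hs h1 h2 e he hP hbe
    refine (sum_aux hbad _ (fun x => ¬ P x) hs.symm (F.erase e) ∅ (insert e ∅) le_rfl h0 hbe).2
      ?_ ?_
    · rw [WP_congr hP, WP]
      simpa using h2
    · simp only [WP, not_not]
      rw [filter_erase_pos, filter_insert_pos hP]
      have := start_zero hbad h1 (Finset.mem_filter.2 ⟨he, hP⟩) (by simpa using hbe)
      simpa using this
  have e1 : ∀ (P : α → Prop) [DecidablePred P],
      WP bad P F ∅ ∅ ↔ W bad (F.filter P) 0 0 0 ∅ ∅ := by
    intro P _
    rw [WP]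
    simp
  by_cases h1 : W bad (F.filter P) 0 0 0 ∅ ∅ <;>
    by_cases h2 : W bad (F.filter (fun x => ¬ P x)) 0 0 0 ∅ ∅
  · simp only [h1, h2, not_true_eq_false, iff_false]
    intro h
    rw [W_iff] at h
    rcases h with ⟨e, he, h3, h4⟩ | ⟨m', hm, -⟩ | ⟨m', hm, -⟩
    · by_cases hP : P e
      · exact h4 (key P hs h1 h2 e he hP h3)
      · refine h4 (key (fun x => ¬ P x) hs.symm h2 ?_ e he hP h3)
        simpa only [not_not] using h1
    · omega
    · omega
  · simp only [h1, h2, not_false_eq_true, iff_true]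
    exact (sum_aux hbad _ P hs F ∅ ∅ le_rfl h0 h0).2 ((e1 _).2 h1) (fun h => h2 ((e1 _).1 h))
  · simp only [h1, h2, not_true_eq_false, iff_true]
    refine (sum_aux hbad _ (fun x => ¬ P x) hs.symm F ∅ ∅ le_rfl h0 h0).2 ((e1 _).2 h2) ?_
    intro h
    apply h1
    rw [← e1]
    simpa only [WP, not_not] using h
  · simp only [h1, h2, not_false_eq_true, iff_false, not_true_eq_false, false_iff]
    exact (sum_aux hbad _ P hs F ∅ ∅ le_rfl h0 h0).1 (fun h => h1 ((e1 _).1 h))
      (fun h => h2 ((e1 _).1 h))

/-- Transport along an embedding of boards. -/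
lemma W_map {β : Type*} [DecidableEq β] (f : β ↪ α) {bad₀ : Finset β → Prop}
    (hf : ∀ S, bad (S.map f) ↔ bad₀ S) :
    ∀ (N : ℕ) (F : Finset β) (A B : Finset β), F.card ≤ N →
      (W bad (F.map f) 0 0 0 (A.map f) (B.map f) ↔ W bad₀ F 0 0 0 A B) := by
  intro N
  induction N with
  | zero =>
    intro F A B hN
    have hF : F = ∅ := by rw [← Finset.card_eq_zero]; omega
    subst hF
    rw [W_iff, W_iff]
    simp
  | succ N ih =>
    intro F A B hN
    rw [W_iff, W_iff]
    refine or_congr ?_ (or_congr (by simp) (by simp))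
    constructor
    · rintro ⟨e, he, h1, h2⟩
      obtain ⟨e', he', rfl⟩ := Finset.mem_map.1 he
      have hc := Finset.card_erase_lt_of_mem he'
      rw [← Finset.map_insert, hf] at h1
      rw [← Finset.map_insert, ← Finset.map_erase, ih _ _ _ (by omega)] at h2
      exact ⟨e', he', h1, h2⟩
    · rintro ⟨e', he', h1, h2⟩
      have hc := Finset.card_erase_lt_of_mem he'
      refine ⟨f e', Finset.mem_map_of_mem f he', ?_, ?_⟩
      · rwa [← Finset.map_insert, hf]
      · rwa [← Finset.map_insert, ← Finset.map_erase, ih _ _ _ (by omega)]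

end Pool.Agent.Helper73.RC
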