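import Pool.Agent.Helper73.RC.Defs
import Pool.Agent.Helper73.RC.Union
import Pool.Agent.Helper73.RC.Ramsey

/-!
# The winner of the reverse clique games on `j K_n + m K_2` with passes
-/

namespace Pool.Agent.Helper73.RC

variable {j n k : ℕ}

lemma clique_mono {S T : Finset (Fin j × Sym2 (Fin n))} (h : S ⊆ T) (hS : Clique k S) :
    Clique k T := by
  obtain ⟨c, U, hU, h1⟩ := hS
  exact ⟨c, U, hU, fun x hx y hy hxy => h (h1 x hx y hy hxy)⟩

lemma not_clique_empty (hk : 2 ≤ k) : ¬ Clique k (∅ : Finset (Fin j × Sym2 (Fin n))) := by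
  rintro ⟨c, U, hU, h1⟩
  obtain ⟨x, hx, y, hy, hxy⟩ := Finset.one_lt_card.1 (by omega : 1 < U.card)
  simpa using h1 x hx y hy hxy

lemma free_nonempty (hj : 1 ≤ j) (hR : Ramsey n k) {A B : Finset (Fin j × Sym2 (Fin n))}
    (hA : ¬ Clique k A) (hB : ¬ Clique k B) : ∃ e ∈ board j n, e ∉ A ∧ e ∉ B := by
  by_contra h
  push Not at h
  let c : Fin j := ⟨0, hj⟩
  obtain ⟨T, hT, h1 | h1⟩ := hR (Finset.univ.filter (fun e => (c, e) ∈ A))
  · exact hA ⟨c, T, hT, fun x hx y hy hxy => by simpa using h1 x hx y hy hxy⟩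
  · refine hB ⟨c, T, hT, fun x hx y hy hxy => h _ ?_ ?_⟩
    · simp [board, hxy]
    · simpa using h1 x hx y hy hxy

lemma erase_eq (A B : Finset (Fin j × Sym2 (Fin n))) (e : Fin j × Sym2 (Fin n)) :
    (board j n \ (A ∪ B)).erase e = board j n \ (B ∪ insert e A) := by
  ext x
  simp only [Finset.mem_erase, Finset.mem_sdiff, Finset.mem_union, Finset.mem_insert]
  tauto

lemma mem_free {A B : Finset (Fin j × Sym2 (Fin n))} {e : Fin j × Sym2 (Fin n)} :
    e ∈ board j n \ (A ∪ B) ↔ e ∈ board j n ∧ e ∉ A ∧ e ∉ B := by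
  simp only [Finset.mem_sdiff, Finset.mem_union]
  tauto

lemma wins_iff_aux (hj : 1 ≤ j) (hR : Ramsey n k) :
    ∀ (N m p q : ℕ) (A B : Finset (Fin j × Sym2 (Fin n))),
      (board j n \ (A ∪ B)).card + m + p + q ≤ N → ¬ Clique k A → ¬ Clique k B →
      (Wins j n k m p q A B ↔ W (Clique k) (board j n \ (A ∪ B)) m p q A B) ∧
      (Loses j n k m p q A B ↔ ¬ W (Clique k) (board j n \ (A ∪ B)) m p q A B) := by
  intro N
  induction N with
  | zero =>
    intro m p q A B hN hA hB
    obtain ⟨e, he, h1, h2⟩ := free_nonempty hj hR hA hB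
    have : 0 < (board j n \ (A ∪ B)).card := Finset.card_pos.2 ⟨e, mem_free.2 ⟨he, h1, h2⟩⟩
    omega
  | succ N ih =>
    intro m p q A B hN hA hB
    have hedge : ∀ e ∈ board j n \ (A ∪ B), ¬ Clique k (insert e A) →
        ((Wins j n k m q p B (insert e A) ↔
          W (Clique k) ((board j n \ (A ∪ B)).erase e) m q p B (insert e A)) ∧
        (Loses j n k m q p B (insert e A) ↔
          ¬ W (Clique k) ((board j n \ (A ∪ B)).erase e) m q p B (insert e A))) := by
      intro e he hs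
      rw [erase_eq]
      have hc := Finset.card_erase_lt_of_mem he
      rw [erase_eq] at hc
      exact ih m q p B (insert e A) (by omega) hB hs
    have hm : ∀ m', m = m' + 1 → ((Wins j n k m' q p B A ↔
          W (Clique k) (board j n \ (A ∪ B)) m' q p B A) ∧
        (Loses j n k m' q p B A ↔ ¬ W (Clique k) (board j n \ (A ∪ B)) m' q p B A)) := by
      intro m' hm'
      have := ih m' q p B A (by rw [Finset.union_comm]; omega) hB hA
      rwa [Finset.union_comm B A] at this
    have hp : ∀ p', p = p' + 1 → ((Wins j n k m q p' B A ↔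
          W (Clique k) (board j n \ (A ∪ B)) m q p' B A) ∧
        (Loses j n k m q p' B A ↔ ¬ W (Clique k) (board j n \ (A ∪ B)) m q p' B A)) := by
      intro p' hp'
      have := ih m q p' B A (by rw [Finset.union_comm]; omega) hB hA
      rwa [Finset.union_comm B A] at this
    constructor
    · rw [W_iff]
      constructor
      · rintro (⟨e, he, h1, h2, hs, h⟩ | h | h)
        · have he' := mem_free.2 ⟨he, h1, h2⟩
          exact Or.inl ⟨e, he', hs, (hedge e he' hs).2.1 h⟩
        · exact Or.inr (Or.inl ⟨_, rfl, (hm _ rfl).2.1 h⟩)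
        · exact Or.inr (Or.inr ⟨_, rfl, (hp _ rfl).2.1 h⟩)
      · rintro (⟨e, he', hs, h⟩ | ⟨m', rfl, h⟩ | ⟨p', rfl, h⟩)
        · obtain ⟨he, h1, h2⟩ := mem_free.1 he'
          exact Wins.edge e he h1 h2 hs ((hedge e he' hs).2.2 h)
        · exact Wins.disjointEdge ((hm _ rfl).2.2 h)
        · exact Wins.pass ((hp _ rfl).2.2 h)
    · rw [W_iff]
      constructor
      · rintro ⟨h0, h1, h2, h3⟩ (⟨e, he', hs, h⟩ | ⟨m', rfl, h⟩ | ⟨p', rfl, h⟩)
        · obtain ⟨he, h4, h5⟩ := mem_free.1 he'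
          exact h ((hedge e he' hs).1.1 (h1 e he h4 h5 hs))
        · exact h ((hm _ rfl).1.1 (h2 _ rfl))
        · exact h ((hp _ rfl).1.1 (h3 _ rfl))
      · intro h
        push Not at h
        obtain ⟨h1, h2, h3⟩ := h
        refine Loses.mk (Or.inl (free_nonempty hj hR hA hB)) ?_ ?_ ?_
        · intro e he h4 h5 hs
          have he' := mem_free.2 ⟨he, h4, h5⟩
          exact (hedge e he' hs).1.2 (h1 e he' hs)
        · intro m' hm'
          exact (hm m' hm').1.2 (h2 m' hm')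
        · intro p' hp'
          exact (hp p' hp').1.2 (h3 p' hp')

lemma wins_iff (hj : 1 ≤ j) (hR : Ramsey n k) {m p q : ℕ}
    {A B : Finset (Fin j × Sym2 (Fin n))} (hA : ¬ Clique k A) (hB : ¬ Clique k B) :
    Wins j n k m p q A B ↔ W (Clique k) (board j n \ (A ∪ B)) m p q A B :=
  (wins_iff_aux hj hR _ m p q A B le_rfl hA hB).1

lemma loses_iff (hj : 1 ≤ j) (hR : Ramsey n k) {m p q : ℕ}
    {A B : Finset (Fin j × Sym2 (Fin n))} (hA : ¬ Clique k A) (hB : ¬ Clique k B) :
    Loses j n k m p q A B ↔ ¬ W (Clique k) (board j n \ (A ∪ B)) m p q A B :=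
  (wins_iff_aux hj hR _ m p q A B le_rfl hA hB).2

end Pool.Agent.Helper73.RC
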