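import Pool.Agent.Helper73.RC.Fin

/-!
# Disjoint copies, symmetry, and the table of the winners
-/

namespace Pool.Agent.Helper73.RC

variable {j n k : ℕ}

/-- the copy `c` -/
def copyEmb (n : ℕ) (c : Fin j) : Fin 1 × Sym2 (Fin n) ↪ Fin j × Sym2 (Fin n) :=
  ⟨fun x => (c, x.2), fun x y h => by
    have h1 : x.2 = y.2 := (Prod.ext_iff.1 h).2
    exact Prod.ext (Subsingleton.elim _ _) h1⟩

lemma copyEmb_apply (n : ℕ) (c : Fin j) (x : Fin 1 × Sym2 (Fin n)) :
    copyEmb n c x = (c, x.2) := rfl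

lemma clique_copy (c : Fin j) (S : Finset (Fin 1 × Sym2 (Fin n))) :
    Clique k (S.map (copyEmb n c)) ↔ Clique k S := by
  constructor
  · rintro ⟨c', T, hT, h⟩
    refine ⟨0, T, hT, fun x hx y hy hxy => ?_⟩
    obtain ⟨z, hz, hz2⟩ := Finset.mem_map.1 (h x hx y hy hxy)
    have h1 : z.2 = s(x, y) := (Prod.ext_iff.1 hz2).2
    have h2 : z = (0, s(x, y)) := Prod.ext (Subsingleton.elim _ _) h1
    rwa [h2] at hz
  · rintro ⟨c', T, hT, h⟩
    refine ⟨c, T, hT, fun x hx y hy hxy => Finset.mem_map.2 ⟨_, h x hx y hy hxy, rfl⟩⟩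

lemma splits_copy (c : Fin j) :
    Splits (Clique (j := j) (n := n) k) (fun x => x.1 = c) := by
  intro S
  constructor
  · rintro ⟨c', T, hT, h⟩
    by_cases hc : c' = c
    · left
      exact ⟨c', T, hT, fun x hx y hy hxy => Finset.mem_filter.2 ⟨h x hx y hy hxy, hc⟩⟩
    · right
      exact ⟨c', T, hT, fun x hx y hy hxy => Finset.mem_filter.2 ⟨h x hx y hy hxy, hc⟩⟩
  · rintro (h | h)
    · exact clique_mono (Finset.filter_subset _ _) h
    · exact clique_mono (Finset.filter_subset _ _) h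

lemma clique_bad : ∀ S T : Finset (Fin j × Sym2 (Fin n)), S ⊆ T → Clique k S → Clique k T :=
  fun _ _ h => clique_mono h

/-- several copies -/
lemma W_copies (hk : 2 ≤ k) (C : Finset (Fin j)) :
    W (Clique k) ((board j n).filter (fun x => x.1 ∈ C)) 0 0 0 ∅ ∅ ↔
      (Odd C.card ∧ W (Clique k) (board 1 n) 0 0 0 ∅ ∅) := by
  induction C using Finset.induction_on with
  | empty =>
    rw [W_iff]
    simp
  | insert c C hc ih =>
    rw [start_union clique_bad (not_clique_empty hk) (fun x => x.1 = c) (splits_copy c)]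
    have h1 : ((board j n).filter (fun x => x.1 ∈ insert c C)).filter (fun x => x.1 = c) =
        (board 1 n).map (copyEmb n c) := by
      ext x
      simp only [Finset.mem_filter, Finset.mem_insert, Finset.mem_map, board, Finset.mem_univ,
        true_and, copyEmb_apply]
      constructor
      · rintro ⟨⟨hx, -⟩, hxc⟩
        exact ⟨(0, x.2), hx, Prod.ext hxc.symm rfl⟩
      · rintro ⟨y, hy, rfl⟩
        exact ⟨⟨hy, Or.inl rfl⟩, rfl⟩
    have h2 : ((board j n).filter (fun x => x.1 ∈ insert c C)).filter (fun x => ¬ x.1 = c) =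
        (board j n).filter (fun x => x.1 ∈ C) := by
      ext x
      simp only [Finset.mem_filter, Finset.mem_insert]
      constructor
      · rintro ⟨⟨hx, hx2⟩, hxc⟩
        exact ⟨hx, hx2.resolve_left hxc⟩
      · rintro ⟨hx, hx2⟩
        exact ⟨⟨hx, Or.inr hx2⟩, fun h => hc (h ▸ hx2)⟩
    have h3 := W_map (copyEmb n c) (bad := Clique k) (bad₀ := Clique k) (clique_copy c) _
      (board 1 n) ∅ ∅ le_rfl
    rw [Finset.map_empty] at h3
    rw [h1, h2, ih, h3, Finset.card_insert_of_notMem hc]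
    by_cases hW : W (Clique k) (board 1 n) 0 0 0 ∅ ∅
    · simp only [hW, and_true, true_iff]
      rw [Nat.odd_add_one]
    · simp only [hW, and_false, not_false_eq_true, iff_true]

lemma W_copies' (hk : 2 ≤ k) :
    W (Clique k) (board j n) 0 0 0 ∅ ∅ ↔
      (Odd j ∧ W (Clique k) (board 1 n) 0 0 0 ∅ ∅) := by
  have := W_copies (j := j) (n := n) hk Finset.univ
  simpa using this

/-- the permutation of the edges defined by a permutation of the copies and a permutation of the
vertices -/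
def autEmb {j n : ℕ} (τ : Equiv.Perm (Fin j)) (σ : Equiv.Perm (Fin n)) :
    Fin j × Sym2 (Fin n) ↪ Fin j × Sym2 (Fin n) :=
  ⟨fun x => (τ x.1, Sym2.map σ x.2), fun x y h => by
    have h1 : τ x.1 = τ y.1 := (Prod.ext_iff.1 h).1
    have h2 : Sym2.map σ x.2 = Sym2.map σ y.2 := (Prod.ext_iff.1 h).2
    exact Prod.ext (τ.injective h1) (Sym2.map.injective σ.injective h2)⟩

lemma autEmb_apply (τ : Equiv.Perm (Fin j)) (σ : Equiv.Perm (Fin n))
    (x : Fin j × Sym2 (Fin n)) : autEmb τ σ x = (τ x.1, Sym2.map σ x.2) := rfl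

lemma clique_aut (τ : Equiv.Perm (Fin j)) (σ : Equiv.Perm (Fin n))
    (S : Finset (Fin j × Sym2 (Fin n))) : Clique k (S.map (autEmb τ σ)) ↔ Clique k S := by
  constructor
  · rintro ⟨c, T, hT, h⟩
    refine ⟨τ.symm c, T.map σ.symm.toEmbedding, by rw [Finset.card_map, hT],
      fun x hx y hy hxy => ?_⟩
    obtain ⟨x', hx', rfl⟩ := Finset.mem_map.1 hx
    obtain ⟨y', hy', rfl⟩ := Finset.mem_map.1 hy
    obtain ⟨z, hz, hz2⟩ := Finset.mem_map.1 (h x' hx' y' hy' (fun h => hxy (by rw [h])))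
    have h1 : τ z.1 = c := (Prod.ext_iff.1 hz2).1
    have h2 : Sym2.map σ z.2 = s(x', y') := (Prod.ext_iff.1 hz2).2
    have h3 : z.2 = s(σ.symm x', σ.symm y') := by
      apply Sym2.map.injective σ.injective
      rw [h2]
      simp
    have h4 : z = (τ.symm c, s(σ.symm x', σ.symm y')) :=
      Prod.ext (by rw [← h1, Equiv.symm_apply_apply]) h3
    rw [h4] at hz
    simpa using hz
  · rintro ⟨c, T, hT, h⟩
    refine ⟨τ c, T.map σ.toEmbedding, by rw [Finset.card_map, hT], fun x hx y hy hxy => ?_⟩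
    obtain ⟨x', hx', rfl⟩ := Finset.mem_map.1 hx
    obtain ⟨y', hy', rfl⟩ := Finset.mem_map.1 hy
    refine Finset.mem_map.2 ⟨(c, s(x', y')), h x' hx' y' hy' (fun h => hxy (by rw [h])), ?_⟩
    rw [autEmb_apply]
    simp

lemma board_aut (τ : Equiv.Perm (Fin j)) (σ : Equiv.Perm (Fin n)) :
    (board j n).map (autEmb τ σ) = board j n := by
  apply Finset.eq_of_subset_of_card_le
  · intro x hx
    obtain ⟨y, hy, rfl⟩ := Finset.mem_map.1 hx
    obtain ⟨y1, y2⟩ := y
    simp only [board, Finset.mem_filter, Finset.mem_univ, true_and] at hy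
    simp only [board, autEmb_apply, Finset.mem_filter, Finset.mem_univ, true_and]
    induction y2 using Sym2.ind with
    | _ a b =>
      simpa using hy
  · rw [Finset.card_map]

lemma exists_perm {e e' : Fin 1 × Sym2 (Fin n)} (he : e ∈ board 1 n) (he' : e' ∈ board 1 n) :
    ∃ σ : Equiv.Perm (Fin n), autEmb (Equiv.refl _) σ e = e' := by
  obtain ⟨i, z⟩ := e
  obtain ⟨i', z'⟩ := e'
  induction z using Sym2.ind with
  | _ a b =>
    induction z' using Sym2.ind with
    | _ c d =>
      have hab : a ≠ b := by simpa [board] using he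
      have hcd : c ≠ d := by simpa [board] using he'
      refine ⟨(Equiv.swap a c).trans (Equiv.swap (Equiv.swap a c b) d), ?_⟩
      refine Prod.ext (Subsingleton.elim _ _) ?_
      have h1 : Equiv.swap a c a = c := Equiv.swap_apply_left a c
      have h2 : Equiv.swap a c b ≠ c := by
        intro h
        exact hab ((Equiv.swap a c).injective (h.trans h1.symm)).symm
      have h3 : Equiv.swap (Equiv.swap a c b) d c = c :=
        Equiv.swap_apply_of_ne_of_ne h2.symm hcd
      rw [autEmb_apply]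
      simp only [Sym2.map_mk, Equiv.trans_apply, Equiv.swap_apply_left]
      rw [h3]

lemma start_first (h : W (Clique k) (board 1 n) 0 0 0 ∅ ∅)
    {e : Fin 1 × Sym2 (Fin n)} (he : e ∈ board 1 n) :
    ¬ W (Clique k) ((board 1 n).erase e) 0 0 0 ∅ {e} := by
  rw [W_iff] at h
  rcases h with ⟨e₀, he₀, h1, h2⟩ | ⟨m', hm, -⟩ | ⟨m', hm, -⟩
  · obtain ⟨σ, hσ⟩ := exists_perm he₀ he
    intro h3
    apply h2
    have h4 := W_map (autEmb (Equiv.refl _) σ) (bad := Clique k) (bad₀ := Clique k)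
      (clique_aut (Equiv.refl _) σ) _ ((board 1 n).erase e₀) ∅ {e₀} le_rfl
    rw [Finset.map_erase, board_aut, Finset.map_empty, Finset.map_singleton, hσ] at h4
    have := h4.1 h3
    simpa using this
  · omega
  · omega

lemma not_clique_singleton (hk : 3 ≤ k) (e : Fin j × Sym2 (Fin n)) :
    ¬ Clique k ({e} : Finset (Fin j × Sym2 (Fin n))) := by
  rintro ⟨c, T, hT, h⟩
  obtain ⟨x, y, z, hx, hy, hz, hxy, hxz, hyz⟩ := Finset.two_lt_card_iff.1 (by omega : 2 < T.card)
  have h1 := h x hx y hy hxy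
  have h2 := h x hx z hz hxz
  rw [Finset.mem_singleton] at h1 h2
  have h3 : s(x, y) = s(x, z) := congrArg Prod.snd (h1.trans h2.symm)
  rw [Sym2.congr_right] at h3
  exact hyz h3

/-- positions which are isomorphic to their colour swap -/
lemma W_symm {A B : Finset (Fin j × Sym2 (Fin n))} (τ : Equiv.Perm (Fin j))
    (σ : Equiv.Perm (Fin n)) (hAB : A.map (autEmb τ σ) = B) (hBA : B.map (autEmb τ σ) = A) :
    W (Clique k) (board j n \ (A ∪ B)) 0 0 0 B A ↔ W (Clique k) (board j n \ (A ∪ B)) 0 0 0 A B := by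
  have h := W_map (autEmb τ σ) (bad := Clique k) (bad₀ := Clique k) (clique_aut τ σ) _
    (board j n \ (A ∪ B)) A B le_rfl
  have h1 : (board j n \ (A ∪ B)).map (autEmb τ σ) = board j n \ (A ∪ B) := by
    rw [Finset.map_sdiff, board_aut, Finset.map_union, hAB, hBA, Finset.union_comm]
  rwa [h1, hAB, hBA] at h

lemma two_edges (hk : 3 ≤ k) (hn : 2 ≤ n) :
    W (Clique k) (board 1 n) 0 0 0 ∅ ∅ ↔
      ∀ e ∈ board 1 n, ∀ f ∈ board 1 n, e ≠ f →
        W (Clique k) (board 1 n \ ({e} ∪ {f})) 0 0 0 {e} {f} := by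
  have key : ∀ e f : Fin 1 × Sym2 (Fin n),
      board 1 n \ ({e} ∪ {f}) = ((board 1 n).erase e).erase f := by
    intro e f
    ext x
    simp only [Finset.mem_sdiff, Finset.mem_union, Finset.mem_singleton, Finset.mem_erase]
    tauto
  constructor
  · intro h e he f hf hef
    have h1 := start_first h he
    by_contra h2
    apply h1
    rw [W_iff]
    refine Or.inl ⟨f, Finset.mem_erase.2 ⟨hef.symm, hf⟩, ?_, ?_⟩
    · simpa using not_clique_singleton hk f
    · rw [key] at h2
      simpa using h2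
  · intro h
    let e : Fin 1 × Sym2 (Fin n) := (0, s(⟨0, by omega⟩, ⟨1, by omega⟩))
    have he : e ∈ board 1 n := by
      simp [board, e]
    rw [W_iff]
    refine Or.inl ⟨e, he, by simpa using not_clique_singleton hk e, ?_⟩
    intro h1
    rw [W_iff] at h1
    rcases h1 with ⟨f, hf, h2, h3⟩ | ⟨m', hm, -⟩ | ⟨m', hm, -⟩
    · obtain ⟨hfe, hf'⟩ := Finset.mem_erase.1 hf
      have h4 := h e he f hf' hfe.symm
      rw [key] at h4
      apply h3
      simpa using h4
    · omega
    · omega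

lemma two_le_of_ramsey (hk : 3 ≤ k) (hR : Ramsey n k) : 2 ≤ n := by
  obtain ⟨T, hT, -⟩ := hR ∅
  have := Finset.card_le_univ T
  rw [Fintype.card_fin] at this
  omega

theorem ramsey4 (hn : 18 ≤ n) : Ramsey n 4 := by
  intro C
  have hr : ∀ x y : Fin n, s(x, y) ∈ C → s(y, x) ∈ C := fun x y h => by rwa [Sym2.eq_swap]
  rcases rams44 (r := fun x y => s(x, y) ∈ C) hr Finset.univ (by simpa using hn) with
    ⟨T, -, hT, h⟩ | ⟨T, -, hT, h⟩
  · exact ⟨T, hT, Or.inl h⟩
  · exact ⟨T, hT, Or.inr h⟩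

theorem ramsey3 (hn : 6 ≤ n) : Ramsey n 3 := by
  intro C
  have hr : ∀ x y : Fin n, s(x, y) ∈ C → s(y, x) ∈ C := fun x y h => by rwa [Sym2.eq_swap]
  rcases rams33 (r := fun x y => s(x, y) ∈ C) hr Finset.univ (by simpa using hn) with
    ⟨T, -, hT, h⟩ | ⟨T, -, hT, h⟩
  · exact ⟨T, hT, Or.inl h⟩
  · exact ⟨T, hT, Or.inr h⟩

theorem main (hk : 3 ≤ k) (hR : Ramsey n k) (hj : 1 ≤ j) :
    (∀ (m p q : ℕ) (A B : Finset (Fin j × Sym2 (Fin n))), ¬ Clique k A → ¬ Clique k B →
      (Loses j n k m p q A B ↔ ¬ Wins j n k m p q A B)) ∧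
    (∀ (m p : ℕ) (A B : Finset (Fin j × Sym2 (Fin n))), ¬ Clique k A → ¬ Clique k B →
      (Even m → (Wins j n k m p p A B ↔ Wins j n k 0 0 0 A B)) ∧
      (Odd m → (Wins j n k m p p A B ↔ Loses j n k 0 0 0 B A)) ∧
      (Wins j n k m p p A B → ∀ e ∈ board j n, e ∉ A → e ∉ B → ¬ Clique k (insert e B) →
        Loses j n k m p p (insert e B) A) ∧
      ((Wins j n k m p p A B ∨ Loses j n k m p p B A) →
        ∀ q, p < q → Wins j n k m q p A B ∧ Loses j n k m p q B A)) ∧
    (∀ (τ : Equiv.Perm (Fin j)) (σ : Equiv.Perm (Fin n)) (A B : Finset (Fin j × Sym2 (Fin n))),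
      ¬ Clique k A → A.map (autEmb τ σ) = B → B.map (autEmb τ σ) = A →
      ∀ m p q : ℕ, Wins j n k m p q A B ↔
        (q < p ∨ (p = q ∧ (Wins j n k 0 0 0 A B ↔ Even m)))) ∧
    (∀ m p q : ℕ, Wins j n k m p q ∅ ∅ ↔
      (q < p ∨ (p = q ∧ ((Odd j ∧ Wins 1 n k 0 0 0 ∅ ∅) ↔ Even m)))) ∧
    (Wins 1 n k 0 0 0 ∅ ∅ → ∀ e ∈ board 1 n,
      Loses 1 n k 0 0 0 {e} ∅ ∧ Loses 1 n k 0 0 0 ∅ {e}) ∧
    (Wins 1 n k 0 0 0 ∅ ∅ ↔ ∀ e ∈ board 1 n, ∀ f ∈ board 1 n, e ≠ f →
      Wins 1 n k 0 0 0 {e} {f}) := by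
  have hk2 : 2 ≤ k := by omega
  refine ⟨?_, ?_, ?_, ?_, ?_, ?_⟩
  · intro m p q A B hA hB
    rw [loses_iff hj hR hA hB, wins_iff hj hR hA hB]
  · intro m p A B hA hB
    refine ⟨?_, ?_, ?_, ?_⟩
    · intro hm
      rw [wins_iff hj hR hA hB, wins_iff hj hR hA hB, W_even' _ hm]
    · intro hm
      rw [wins_iff hj hR hA hB, loses_iff hj hR hB hA,
        W_odd clique_bad (Nat.not_even_iff_odd.2 hm), Finset.union_comm]
    · intro h e he hA' hB' hs
      rw [wins_iff hj hR hA hB] at h
      rw [loses_iff hj hR hs hA]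
      have h1 := tempo clique_bad h (mem_free.2 ⟨he, hA', hB'⟩) hs
      have h2 : (board j n \ (A ∪ B)).erase e = board j n \ (insert e B ∪ A) := by
        rw [Finset.union_comm, erase_eq, Finset.union_comm]
      rwa [h2] at h1
    · intro h q hq
      rw [wins_iff hj hR hA hB, loses_iff hj hR hB hA, Finset.union_comm B A] at h
      constructor
      · rw [wins_iff hj hR hA hB]
        exact W_of_lt clique_bad hq h
      · rw [loses_iff hj hR hB hA, Finset.union_comm B A]
        exact not_W_of_lt clique_bad hq h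
  · intro τ σ A B hA hAB hBA m p q
    have hB : ¬ Clique k B := by
      rw [← hAB, clique_aut]
      exact hA
    rw [wins_iff hj hR hA hB, wins_iff hj hR hA hB]
    exact table_balanced clique_bad (W_symm τ σ hAB hBA).symm m p q
  · intro m p q
    rw [wins_iff hj hR (not_clique_empty hk2) (not_clique_empty hk2),
      wins_iff le_rfl hR (not_clique_empty hk2) (not_clique_empty hk2)]
    simp only [Finset.union_empty, Finset.sdiff_empty]
    rw [start_table clique_bad, W_copies' hk2]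
  · intro h e he
    rw [wins_iff le_rfl hR (not_clique_empty hk2) (not_clique_empty hk2)] at h
    simp only [Finset.union_empty, Finset.sdiff_empty] at h
    constructor
    · rw [loses_iff le_rfl hR (not_clique_singleton hk e) (not_clique_empty hk2)]
      rw [Finset.union_empty, Finset.sdiff_singleton_eq_erase]
      exact start_zero clique_bad h he (not_clique_singleton hk e)
    · rw [loses_iff le_rfl hR (not_clique_empty hk2) (not_clique_singleton hk e)]
      rw [Finset.empty_union, Finset.sdiff_singleton_eq_erase]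
      exact start_first h he
  · rw [wins_iff le_rfl hR (not_clique_empty hk2) (not_clique_empty hk2)]
    simp only [Finset.union_empty, Finset.sdiff_empty]
    rw [two_edges hk (two_le_of_ramsey hk hR)]
    constructor
    · intro h e he f hf hef
      rw [wins_iff le_rfl hR (not_clique_singleton hk e) (not_clique_singleton hk f)]
      exact h e he f hf hef
    · intro h e he f hf hef
      have := h e he f hf hef
      rwa [wins_iff le_rfl hR (not_clique_singleton hk e) (not_clique_singleton hk f)] at this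

end Pool.Agent.Helper73.RC
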